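import Pool.Agent.Helper54.PT.Pd

/-! TW module A15 (MP_1d384c_nt): lower bound for the number of squarefree elements. -/

set_option autoImplicit false

namespace Pool.Agent.Helper24.TWA15

open Polynomial Finset Filter Topology Pool.Agent.Helper54.PT

section

variable {F : Type} [Field F] [Finite F]

theorem card_mon' (n : ℕ) : (mon F n).card = Nat.card F ^ n := by
  have e : {f // f ∈ mon F n} ≃ degreeLT F n :=
    { toFun := fun f => ⟨f.1 - X ^ n, by
        have h := mem_mon.1 f.2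
        rw [mem_degreeLT]
        have h1 : f.1 ≠ 0 := h.1.ne_zero
        have h2 : degree f.1 = n := by rw [degree_eq_natDegree h1, h.2]
        rw [← h2]
        refine degree_sub_lt_left ?_ h1 ?_
        · rw [h2, degree_X_pow]
        · rw [h.1.leadingCoeff, (monic_X_pow n).leadingCoeff]⟩
      invFun := fun g => ⟨X ^ n + g.1, by
        have h := mem_degreeLT.1 g.2
        rw [mem_mon]
        refine ⟨monic_X_pow_add h, ?_⟩
        rw [natDegree_add_eq_left_of_degree_lt (by rwa [degree_X_pow]), natDegree_X_pow]⟩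
      left_inv := fun f => Subtype.ext (by simp)
      right_inv := fun g => Subtype.ext (by simp) }
  have h1 : Nat.card {f // f ∈ mon F n} = (mon F n).card := by
    rw [Nat.card_eq_fintype_card, Fintype.card_coe]
  rw [← h1, Nat.card_congr e, Nat.card_congr (degreeLTEquiv F n).toEquiv, Nat.card_fun,
    Nat.card_eq_fintype_card (α := Fin n), Fintype.card_fin]

theorem card_prm_le (k : ℕ) : (prm F k).card ≤ Nat.card F ^ k := by
  classical
  rw [← card_mon', ← card_image_of_injective (prm F k) Subtype.val_injective]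
  refine card_le_card fun f hf => ?_
  obtain ⟨P, hP, rfl⟩ := mem_image.1 hf
  exact mem_mon.2 ⟨P.2.1, mem_prm.1 hP⟩

theorem card_prm_add (k : ℕ) (hk : 2 ≤ k) :
    (prm F k).card + Nat.card F ^ (k - 1) ≤ Nat.card F ^ k := by
  classical
  have inj : Function.Injective (fun g : F[X] => X * g) := fun a b h =>
    mul_left_cancel₀ X_ne_zero h
  rw [← card_mon', ← card_mon', ← card_image_of_injective (prm F k) Subtype.val_injective,
    ← card_image_of_injective (mon F (k - 1)) inj, ← card_union_of_disjoint]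
  · refine card_le_card fun f hf => ?_
    rcases mem_union.1 hf with hf | hf
    · obtain ⟨P, hP, rfl⟩ := mem_image.1 hf
      exact mem_mon.2 ⟨P.2.1, mem_prm.1 hP⟩
    · obtain ⟨g, hg, rfl⟩ := mem_image.1 hf
      have h := mem_mon.1 hg
      refine mem_mon.2 ⟨monic_X.mul h.1, ?_⟩
      rw [monic_X.natDegree_mul h.1, h.2, natDegree_X]
      omega
  · rw [disjoint_left]
    intro f hf hf'
    obtain ⟨P, hP, rfl⟩ := mem_image.1 hf
    obtain ⟨g, hg, hgP⟩ := mem_image.1 hf'
    have h := mem_mon.1 hg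
    have hi := P.2.2
    rw [← hgP] at hi
    rcases hi.isUnit_or_isUnit rfl with hu | hu
    · exact not_isUnit_X hu
    · have := natDegree_eq_zero_of_isUnit hu
      omega

theorem sum_prm_le (K : ℕ) (hK : 1 ≤ K) :
    ∑ k ∈ Icc 1 K, ((prm F k).card : ℝ) * ((Nat.card F : ℝ)⁻¹) ^ (2 * k) ≤
      (Nat.card F : ℝ)⁻¹ + ((Nat.card F : ℝ)⁻¹) ^ 2 - ((Nat.card F : ℝ)⁻¹) ^ (K + 1) := by
  have hq : (0 : ℝ) < Nat.card F := by exact_mod_cast Nat.card_pos
  have hq0 : (Nat.card F : ℝ) ≠ 0 := hq.ne'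
  induction K, hK using Nat.le_induction with
  | base =>
    rw [Icc_self, sum_singleton]
    have h := card_prm_le (F := F) 1
    rw [pow_one] at h
    have h' : ((prm F 1).card : ℝ) ≤ Nat.card F := by exact_mod_cast h
    have h2 : ((prm F 1).card : ℝ) * ((Nat.card F : ℝ)⁻¹) ^ (2 * 1)
        ≤ Nat.card F * ((Nat.card F : ℝ)⁻¹) ^ (2 * 1) :=
      mul_le_mul_of_nonneg_right h' (by positivity)
    refine h2.trans (le_of_eq ?_)
    rw [mul_one, add_sub_assoc, sub_self, add_zero, sq, ← mul_assoc, mul_inv_cancel₀ hq0, one_mul]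
  | succ K hK ih =>
    rw [sum_Icc_succ_top (by omega)]
    have h := card_prm_add (F := F) (K + 1) (by omega)
    rw [Nat.add_sub_cancel] at h
    have h' : ((prm F (K + 1)).card : ℝ) + (Nat.card F : ℝ) ^ K ≤ (Nat.card F : ℝ) ^ (K + 1) := by
      exact_mod_cast h
    have h2 : ((prm F (K + 1)).card : ℝ) * ((Nat.card F : ℝ)⁻¹) ^ (2 * (K + 1))
        ≤ ((Nat.card F : ℝ) ^ (K + 1) - (Nat.card F : ℝ) ^ K)
          * ((Nat.card F : ℝ)⁻¹) ^ (2 * (K + 1)) :=
      mul_le_mul_of_nonneg_right (by linarith) (by positivity)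
    have h3 : ((Nat.card F : ℝ) ^ (K + 1) - (Nat.card F : ℝ) ^ K)
          * ((Nat.card F : ℝ)⁻¹) ^ (2 * (K + 1))
        = ((Nat.card F : ℝ)⁻¹) ^ (K + 1) - ((Nat.card F : ℝ)⁻¹) ^ (K + 1 + 1) := by
      have e1 : (Nat.card F : ℝ) ^ (K + 1) * ((Nat.card F : ℝ)⁻¹) ^ (K + 1) = 1 := by
        rw [← mul_pow, mul_inv_cancel₀ hq0, one_pow]
      have e2 : (Nat.card F : ℝ) ^ K * ((Nat.card F : ℝ)⁻¹) ^ K = 1 := by
        rw [← mul_pow, mul_inv_cancel₀ hq0, one_pow]
      have e3 : ((Nat.card F : ℝ)⁻¹) ^ (2 * (K + 1))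
        = ((Nat.card F : ℝ)⁻¹) ^ (K + 1) * ((Nat.card F : ℝ)⁻¹) ^ (K + 1) := by
        rw [← pow_add]; ring_nf
      have e4 : ((Nat.card F : ℝ)⁻¹) ^ (2 * (K + 1))
        = ((Nat.card F : ℝ)⁻¹) ^ K * ((Nat.card F : ℝ)⁻¹) ^ (K + 1 + 1) := by
        rw [← pow_add]; ring_nf
      rw [sub_mul]
      nth_rewrite 1 [e3]
      rw [e4, ← mul_assoc, ← mul_assoc, e1, e2, one_mul, one_mul]
    linarith

theorem sum_pow_le (q M : ℕ) (hq : 2 ≤ q) : ∑ k ∈ Icc 1 M, q ^ k ≤ 2 * q ^ M := by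
  induction M with
  | zero => simp
  | succ M ih =>
    rw [sum_Icc_succ_top (by omega)]
    have : 2 * q ^ M ≤ q ^ (M + 1) := by
      rw [pow_succ, mul_comm]
      exact Nat.mul_le_mul_left _ hq
    omega

omit [Finite F] in
theorem coprime_prm {σ : Type} [Fintype σ] (R : σ → Prm F) (P : Prm F) (h : ∀ r, P ≠ R r) :
    IsCoprime P.1 (∏ r, (R r).1) := by
  refine IsCoprime.prod_right fun r _ => ?_
  rw [P.2.2.coprime_iff_not_dvd]
  intro hd
  refine h r (Subtype.ext ?_)
  exact eq_of_monic_of_associated P.2.1 (R r).2.1 (P.2.2.associated_of_dvd (R r).2.2 hd)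

open Classical in
theorem card_sq_mult (P Δ : F[X]) (hP : P.Monic) (hc : IsCoprime P Δ) (N : ℕ) :
    ((mon F N).filter fun h => P * P ∣ 1 + Δ * h).card ≤ Nat.card F ^ (N - 2 * P.natDegree) := by
  have hPP : (P * P).Monic := hP.mul hP
  have hnd : (P * P).natDegree = 2 * P.natDegree := by rw [hP.natDegree_mul hP]; ring
  have hinj : Set.InjOn (fun h : F[X] => h /ₘ (P * P))
      ((mon F N).filter fun h => P * P ∣ 1 + Δ * h : Finset F[X]) := by
    intro a ha b hb hab
    have ha' := (mem_filter.1 (mem_coe.1 ha)).2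
    have hb' := (mem_filter.1 (mem_coe.1 hb)).2
    have h1 : P * P ∣ Δ * (a - b) := by
      have := dvd_sub ha' hb'
      have e : 1 + Δ * a - (1 + Δ * b) = Δ * (a - b) := by ring
      rwa [e] at this
    have h2 : P * P ∣ a - b := (hc.mul_left hc).dvd_of_dvd_mul_left h1
    have h3 : a %ₘ (P * P) = b %ₘ (P * P) := by
      have := (modByMonic_eq_zero_iff_dvd hPP).2 h2
      rwa [sub_modByMonic, sub_eq_zero] at this
    simp only at hab
    rw [← modByMonic_add_div a (P * P), ← modByMonic_add_div b (P * P), h3, hab]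
  rw [← card_image_of_injOn hinj]
  by_cases hN : 2 * P.natDegree ≤ N
  · rw [← card_mon']
    refine card_le_card fun f hf => ?_
    obtain ⟨h, hh, rfl⟩ := mem_image.1 hf
    have hm := mem_mon.1 (mem_filter.1 hh).1
    refine mem_mon.2 ⟨?_, ?_⟩
    · rw [Monic, leadingCoeff_divByMonic_of_monic hPP, hm.1]
      rw [degree_eq_natDegree hPP.ne_zero, degree_eq_natDegree hm.1.ne_zero, hnd, hm.2]
      exact_mod_cast hN
    · rw [natDegree_divByMonic _ hPP, hnd, hm.2]
  · have e : N - 2 * P.natDegree = 0 := by omega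
    rw [e, pow_zero]
    refine (card_le_card (t := {0}) fun f hf => ?_).trans (by simp)
    obtain ⟨h, hh, rfl⟩ := mem_image.1 hf
    have hm := mem_mon.1 (mem_filter.1 hh).1
    rw [mem_singleton, divByMonic_eq_zero_iff hPP, degree_eq_natDegree hPP.ne_zero,
      degree_eq_natDegree hm.1.ne_zero, hnd, hm.2]
    exact_mod_cast (by omega : N < 2 * P.natDegree)

omit [Finite F] in
theorem monic_one_add {Δ h : F[X]} (hΔ : Δ.Monic) (hh : h.Monic)
    (hn : 1 ≤ Δ.natDegree + h.natDegree) :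
    (1 + Δ * h).Monic ∧ (1 + Δ * h).natDegree = Δ.natDegree + h.natDegree := by
  have h1 : (Δ * h).Monic := hΔ.mul hh
  have h2 : (Δ * h).natDegree = Δ.natDegree + h.natDegree := hΔ.natDegree_mul hh
  refine ⟨h1.add_of_right ?_, ?_⟩
  · rw [degree_one, degree_eq_natDegree h1.ne_zero, h2]
    exact_mod_cast hn
  · rw [natDegree_add_eq_right_of_natDegree_lt, h2]
    rw [natDegree_one, h2]
    exact hn

omit [Finite F] in
theorem exists_prm_sq_dvd {f : F[X]} (hf : f ≠ 0) (hs : ¬ Squarefree f) :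
    ∃ P : Prm F, P.1 * P.1 ∣ f := by
  classical
  rw [squarefree_iff_irreducible_sq_not_dvd_of_ne_zero hf] at hs
  push Not at hs
  obtain ⟨x, hx, hxf⟩ := hs
  have ha := normalize_associated x
  refine ⟨⟨normalize x, monic_normalize hx.ne_zero, ha.symm.irreducible hx⟩, ?_⟩
  exact (ha.mul_mul ha).dvd.trans hxf

omit [Finite F] in
theorem exists_D {σ : Type} (R : σ → Prm F) (f : F[X]) (hf : f.Monic) (hsf : Squarefree f)
    (hR : ∀ r, ¬ (R r).1 ∣ f) :
    ∃ D : Finset {P : Prm F // ∀ r, P ≠ R r}, ∏ p ∈ D, p.1.1 = f := by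
  classical
  have h1 : (UniqueFactorizationMonoid.normalizedFactors f).Nodup :=
    (UniqueFactorizationMonoid.squarefree_iff_nodup_normalizedFactors hf.ne_zero).1 hsf
  have h2 : C f.leadingCoeff * (UniqueFactorizationMonoid.normalizedFactors f).prod = f :=
    leadingCoeff_mul_prod_normalizedFactors f
  rw [hf.leadingCoeff, C_1, one_mul] at h2
  have hs : ∏ p ∈ (UniqueFactorizationMonoid.normalizedFactors f).toFinset, p = f := by
    rw [Finset.prod_eq_multiset_prod, Multiset.toFinset_val, Multiset.dedup_eq_self.2 h1,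
      Multiset.map_id']
    exact h2
  have hmem : ∀ p ∈ (UniqueFactorizationMonoid.normalizedFactors f).toFinset,
      Irreducible p ∧ p.Monic ∧ p ∣ f := fun p hp =>
    (Polynomial.mem_normalizedFactors_iff hf.ne_zero).1 (Multiset.mem_toFinset.1 hp)
  let g : {p // p ∈ (UniqueFactorizationMonoid.normalizedFactors f).toFinset} →
      {P : Prm F // ∀ r, P ≠ R r} := fun p =>
    ⟨⟨p.1, (hmem p.1 p.2).2.1, (hmem p.1 p.2).1⟩, fun r h => hR r (by
      rw [← h]; exact (hmem p.1 p.2).2.2)⟩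
  refine ⟨(UniqueFactorizationMonoid.normalizedFactors f).toFinset.attach.image g, ?_⟩
  rw [prod_image]
  · have := prod_attach (UniqueFactorizationMonoid.normalizedFactors f).toFinset (fun p => p)
    exact this.trans hs
  · intro a _ b _ hab
    have h3 : (g a).1.1 = (g b).1.1 := by rw [hab]
    exact Subtype.ext h3

end

end Pool.Agent.Helper24.TWA15

namespace Pool.Agent.Helper54.PT

open Polynomial Finset Filter Topology Pool.Agent.Helper24.TWA15

section

variable {F : Type} [Field F] [Finite F] {ℓ : ℕ} [Fact ℓ.Prime] {σ : Type} [Fintype σ]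
  {lg : F → ZMod ℓ}
  (hrec : ∀ P Q : Prm F, P ≠ Q → sy lg Q.1 P.1 = sy lg P.1 Q.1) (R : σ → Prm F)

/-- A15: lower bound for the squarefree count -/
theorem pd_lower : ∃ c : ℝ, 0 < c ∧
    ∀ᶠ n : ℕ in atTop, c * (Nat.card F : ℝ) ^ n ≤ (((pd lg hrec R).sq n).card : ℝ) := by
  classical
  have hq2 : 2 ≤ Nat.card F := Finite.one_lt_card
  have hqR2 : (2 : ℝ) ≤ Nat.card F := by exact_mod_cast hq2
  have hq : (0 : ℝ) < Nat.card F := by linarith
  set Δ : F[X] := ∏ r, (R r).1 with hΔdef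
  have hΔ : Δ.Monic := monic_prod_of_monic _ _ fun r _ => (R r).2.1
  set δ := Δ.natDegree with hδ
  refine ⟨1 / (8 * (Nat.card F : ℝ) ^ δ), by positivity, ?_⟩
  rw [eventually_atTop]
  refine ⟨2 * δ + 8, fun n hn => ?_⟩
  obtain ⟨N, rfl⟩ : ∃ N, n = δ + N := ⟨n - δ, by omega⟩
  -- the squarefree part injects
  have hH : ∀ h ∈ mon F N, (1 + Δ * h).Monic ∧ (1 + Δ * h).natDegree = δ + N := by
    intro h hh
    have hm := mem_mon.1 hh
    have := monic_one_add hΔ hm.1 (by omega)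
    rwa [hm.2] at this
  have hRnot : ∀ h : F[X], ∀ r, ¬ (R r).1 ∣ 1 + Δ * h := by
    intro h r hd
    have h1 : (R r).1 ∣ Δ * h := (dvd_prod_of_mem (fun r => (R r).1) (mem_univ r)).mul_right h
    have h2 : (R r).1 ∣ 1 := (dvd_add_left h1).1 hd
    exact (R r).2.2.not_isUnit (isUnit_of_dvd_one h2)
  have hsf : ((mon F N).filter fun h => Squarefree (1 + Δ * h)).card
      ≤ ((pd lg hrec R).sq (δ + N)).card := by
    have hinj : Function.Injective (fun h : F[X] => 1 + Δ * h) := fun a b hab =>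
      mul_left_cancel₀ hΔ.ne_zero (add_left_cancel hab)
    rw [← card_image_of_injective _ hinj]
    let Ψ : Finset (pd lg hrec R).P → F[X] := fun D => ∏ p ∈ D, p.1.1
    refine (card_le_card (t := ((pd lg hrec R).sq (δ + N)).image Ψ) fun f hf => ?_).trans
      card_image_le
    obtain ⟨h, hh, rfl⟩ := mem_image.1 hf
    obtain ⟨hh1, hh2⟩ := mem_filter.1 hh
    obtain ⟨hm, hd⟩ := hH h hh1
    obtain ⟨D, hD⟩ := exists_D R (1 + Δ * h) hm hh2 (hRnot h)
    refine mem_image.2 ⟨D, (PData.mem_sq (pd lg hrec R)).2 ?_, hD⟩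
    have e : (pd lg hrec R).dg D = ∑ p ∈ D, (p.1.1).natDegree := rfl
    rw [e, ← natDegree_prod_of_monic D (fun p => p.1.1) fun p _ => p.1.2.1, hD, hd]
  -- the non-squarefree part is small
  have hnsf : ((mon F N).filter fun h => ¬ Squarefree (1 + Δ * h)).card
      ≤ ∑ k ∈ Icc 1 ((δ + N) / 2), (prm F k).card * Nat.card F ^ (N - 2 * k) := by
    have hsub : ((mon F N).filter fun h => ¬ Squarefree (1 + Δ * h)) ⊆
        (Icc 1 ((δ + N) / 2)).biUnion fun k => ((prm F k).filter fun P => ∀ r, P ≠ R r).biUnion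
          fun P => (mon F N).filter fun h => P.1 * P.1 ∣ 1 + Δ * h := by
      intro h hh
      obtain ⟨hh1, hh2⟩ := mem_filter.1 hh
      obtain ⟨hm, hd⟩ := hH h hh1
      obtain ⟨P, hP⟩ := exists_prm_sq_dvd hm.ne_zero hh2
      have hdeg := natDegree_le_of_dvd hP hm.ne_zero
      rw [P.2.1.natDegree_mul P.2.1, hd] at hdeg
      have hpos := P.2.2.natDegree_pos
      simp only [mem_biUnion, mem_filter, mem_Icc]
      refine ⟨P.1.natDegree, ⟨hpos, by omega⟩, P, ⟨mem_prm.2 rfl, fun r hr => ?_⟩, hh1, hP⟩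
      refine hRnot h r ?_
      rw [← hr]
      exact (dvd_mul_right _ _).trans hP
    refine (card_le_card hsub).trans (card_biUnion_le.trans (sum_le_sum fun k _ => ?_))
    refine card_biUnion_le.trans ((sum_le_card_nsmul _ _ (Nat.card F ^ (N - 2 * k))
      fun P hP => ?_).trans ?_)
    · obtain ⟨hP1, hP2⟩ := mem_filter.1 hP
      have := card_sq_mult P.1 Δ P.2.1 (coprime_prm R P hP2) N
      rwa [mem_prm.1 hP1] at this
    · rw [smul_eq_mul]
      exact Nat.mul_le_mul_right _ (card_filter_le _ _)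
  have htot : ((mon F N).filter fun h => Squarefree (1 + Δ * h)).card
      + ((mon F N).filter fun h => ¬ Squarefree (1 + Δ * h)).card = Nat.card F ^ N := by
    rw [← card_mon', card_filter_add_card_filter_not]
  -- real estimates
  set a : ℝ := (Nat.card F : ℝ)⁻¹ with ha
  have ha0 : 0 < a := by positivity
  have ha2 : a ≤ 1 / 2 := by
    rw [ha, inv_le_comm₀ hq (by norm_num)]
    norm_num
    exact hq2
  have hreal : ((∑ k ∈ Icc 1 ((δ + N) / 2), (prm F k).card * Nat.card F ^ (N - 2 * k) : ℕ) : ℝ)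
      ≤ 3 / 4 * (Nat.card F : ℝ) ^ N + 2 * (Nat.card F : ℝ) ^ ((δ + N) / 2) := by
    push_cast
    have h1 : ∀ k ∈ Icc 1 ((δ + N) / 2),
        ((prm F k).card : ℝ) * (Nat.card F : ℝ) ^ (N - 2 * k)
          ≤ (Nat.card F : ℝ) ^ N * (((prm F k).card : ℝ) * a ^ (2 * k)) + (prm F k).card := by
      intro k _
      have h2 : (Nat.card F : ℝ) ^ (N - 2 * k) ≤ (Nat.card F : ℝ) ^ N * a ^ (2 * k) + 1 := by
        by_cases hk : 2 * k ≤ N
        · have : (Nat.card F : ℝ) ^ (N - 2 * k) = (Nat.card F : ℝ) ^ N * a ^ (2 * k) := by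
            rw [pow_sub₀ _ hq.ne' hk, ha, inv_pow]
          rw [this]
          linarith
        · have : N - 2 * k = 0 := by omega
          rw [this, pow_zero]
          have : 0 ≤ (Nat.card F : ℝ) ^ N * a ^ (2 * k) := by positivity
          linarith
      calc ((prm F k).card : ℝ) * (Nat.card F : ℝ) ^ (N - 2 * k)
          ≤ (prm F k).card * ((Nat.card F : ℝ) ^ N * a ^ (2 * k) + 1) :=
            mul_le_mul_of_nonneg_left h2 (Nat.cast_nonneg _)
        _ = _ := by ring
    refine (sum_le_sum h1).trans ?_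
    rw [sum_add_distrib, ← mul_sum]
    have h3 : ∑ k ∈ Icc 1 ((δ + N) / 2), ((prm F k).card : ℝ) * a ^ (2 * k) ≤ 3 / 4 := by
      have := sum_prm_le (F := F) ((δ + N) / 2) (by omega)
      rw [← ha] at this
      have h4 : 0 ≤ a ^ ((δ + N) / 2 + 1) := by positivity
      nlinarith
    have h5 : ∑ k ∈ Icc 1 ((δ + N) / 2), ((prm F k).card : ℝ)
        ≤ 2 * (Nat.card F : ℝ) ^ ((δ + N) / 2) := by
      have h6 := sum_pow_le (Nat.card F) ((δ + N) / 2) hq2
      have h7 : ∑ k ∈ Icc 1 ((δ + N) / 2), (prm F k).card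
          ≤ ∑ k ∈ Icc 1 ((δ + N) / 2), Nat.card F ^ k := sum_le_sum fun k _ => card_prm_le k
      exact_mod_cast h7.trans h6
    have h8 : (0 : ℝ) ≤ (Nat.card F : ℝ) ^ N := by positivity
    nlinarith
  have hbig : 16 * (Nat.card F : ℝ) ^ ((δ + N) / 2) ≤ (Nat.card F : ℝ) ^ N := by
    have h1 : (16 : ℝ) ≤ (Nat.card F : ℝ) ^ 4 := by
      calc (16 : ℝ) = 2 ^ 4 := by norm_num
        _ ≤ (Nat.card F : ℝ) ^ 4 := pow_le_pow_left₀ (by norm_num) hqR2 4
    calc 16 * (Nat.card F : ℝ) ^ ((δ + N) / 2)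
        ≤ (Nat.card F : ℝ) ^ 4 * (Nat.card F : ℝ) ^ ((δ + N) / 2) :=
          mul_le_mul_of_nonneg_right h1 (by positivity)
      _ = (Nat.card F : ℝ) ^ (4 + (δ + N) / 2) := (pow_add _ _ _).symm
      _ ≤ (Nat.card F : ℝ) ^ N := pow_le_pow_right₀ (by linarith) (by omega)
  have hsfR : (((mon F N).filter fun h => Squarefree (1 + Δ * h)).card : ℝ)
      ≤ (((pd lg hrec R).sq (δ + N)).card : ℝ) := by exact_mod_cast hsf
  have hnsfR : (((mon F N).filter fun h => ¬ Squarefree (1 + Δ * h)).card : ℝ)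
      ≤ ((∑ k ∈ Icc 1 ((δ + N) / 2), (prm F k).card * Nat.card F ^ (N - 2 * k) : ℕ) : ℝ) := by
    exact_mod_cast hnsf
  have htotR : (((mon F N).filter fun h => Squarefree (1 + Δ * h)).card : ℝ)
      + (((mon F N).filter fun h => ¬ Squarefree (1 + Δ * h)).card : ℝ) = (Nat.card F : ℝ) ^ N := by
    exact_mod_cast htot
  have hfin : 1 / (8 * (Nat.card F : ℝ) ^ δ) * (Nat.card F : ℝ) ^ (δ + N)
      = (Nat.card F : ℝ) ^ N / 8 := by
    rw [pow_add]
    field_simp
  rw [hfin]
  linarith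

end

end Pool.Agent.Helper54.PT
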